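import Mathlib

/-!
# Monochromatic symmetric subsets of large Abelian groups in ZFC

For every cardinal `κ` and every infinite Abelian group `G` with `κ < |G|`, every colouring of `G`
with finitely many colours has a monochromatic symmetric subset of cardinality at least `κ`.

The proof is a closing-off argument.  The combinatorial heart is `exists_pair`: if `c` is a
colouring of `S × S` with finitely many colours and `κ < |S|`, `S` infinite, then there are
`x, z` and a colour `i` such that `c x y = i = c y z` for at least `κ` many `y`.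
-/

open Cardinal Set

universe u

namespace Pool.Agent.Results.MP_d56e90_lc.SymmetricZFC

/-- A subset `A` of a group `G` is symmetric if `A = g A⁻¹ g` for some `g` in `G`. -/
def IsSymmetric {G : Type u} [Group G] (A : Set G) : Prop :=
  ∃ g : G, A = (fun a : G => g * a⁻¹ * g) '' A

/-- A subset `A` is monochromatic for the colouring `χ` if `χ` is constant on `A`. -/
def IsMonochromatic {G C : Type u} (χ : G → C) (A : Set G) : Prop :=
  ∀ a ∈ A, ∀ b ∈ A, χ a = χ b

/-- `nu G κ` is the least cardinal `r` such that some colouring of `G` with `r` colours has no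
monochromatic symmetric subset of cardinality at least `κ`; it is `⊤` if there is no such `r`. -/
noncomputable def nu (G : Type u) [Group G] (κ : Cardinal.{u}) : WithTop Cardinal.{u} :=
  sInf {r : WithTop Cardinal.{u} | ∃ (C : Type u) (χ : G → C), r = ((#C : Cardinal.{u}) : WithTop Cardinal.{u}) ∧
    ∀ A : Set G, IsSymmetric A → IsMonochromatic χ A → ¬ κ ≤ #A}

section Pairs

variable {S : Type u} {C : Type u} (c : S → S → C) (κ : Cardinal.{u})

/-- `z` is successful if for some `x` and some colour `i` there are at least `κ` many `y` with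
`c x y = i = c y z`. -/
def Success (z : S) : Prop := ∃ (x : S) (i : C), κ ≤ #{y : S | c x y = i ∧ c y z = i}

theorem key {lam : Cardinal.{u}} (hlam : lam.IsRegular) (hκ : κ < lam) (I : Finset C) :
    ∀ K : Cardinal.{u}, K < lam → ∀ A : Set S, lam ≤ #A → ∃ N : Set S, N ⊆ A ∧ #N < lam ∧
      #{z : S | z ∈ A ∧ ¬ Success c κ z ∧ ¬ K ≤ #{y : S | y ∈ N ∧ c y z ∉ I}} < lam := by
  classical
  induction I using Finset.induction_on with
  | empty =>
    intro K hK A hA
    obtain ⟨N, hNA, hN⟩ := Cardinal.le_mk_iff_exists_subset.1 (hK.le.trans hA)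
    refine ⟨N, hNA, by rw [hN]; exact hK, ?_⟩
    have : {z : S | z ∈ A ∧ ¬ Success c κ z ∧
        ¬ K ≤ #{y : S | y ∈ N ∧ c y z ∉ (∅ : Finset C)}} = ∅ := by
      ext z
      simp only [Finset.notMem_empty, not_false_eq_true, and_true, mem_ofPred_eq,
        mem_empty_iff_false, iff_false, not_and, not_not]
      intro _ _
      exact hN.ge
    rw [this]
    simpa using hlam.pos
  | insert i I hi IH =>
    intro K hK A hA
    obtain ⟨N₀, hN₀A, hN₀, hE₀⟩ := IH K hK A hA
    have hκK : κ + K < lam := Cardinal.add_lt_of_lt hlam.aleph0_le hκ hK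
    -- the pieces
    let Ax : S → Set S := fun x => {z : S | z ∈ A ∧ c x z = i}
    have hx : ∀ x : S, ∃ Nx : Set S, Nx ⊆ Ax x ∧ #Nx < lam ∧
        #{z : S | z ∈ Ax x ∧ ¬ Success c κ z ∧
          ¬ (κ + K) ≤ #{y : S | y ∈ Nx ∧ c y z ∉ I}} < lam := by
      intro x
      by_cases hbig : lam ≤ #(Ax x)
      · exact IH (κ + K) hκK (Ax x) hbig
      · refine ⟨∅, empty_subset _, by simpa using hlam.pos, ?_⟩
        refine lt_of_le_of_lt ?_ (not_le.1 hbig)
        exact Cardinal.mk_le_mk_of_subset (fun z hz => hz.1)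
    choose Nx hNxA hNx hEx using hx
    refine ⟨N₀ ∪ ⋃ x ∈ N₀, Nx x, ?_, ?_, ?_⟩
    · refine union_subset hN₀A (iUnion₂_subset fun x _ y hy => (hNxA x hy).1)
    · refine lt_of_le_of_lt (Cardinal.mk_union_le _ _) (Cardinal.add_lt_of_lt hlam.aleph0_le hN₀ ?_)
      exact (Cardinal.card_biUnion_lt_iff_forall_of_isRegular hlam hN₀).2 fun x _ => hNx x
    · -- the exceptional set
      refine lt_of_le_of_lt (Cardinal.mk_le_mk_of_subset (t :=
        {z : S | z ∈ A ∧ ¬ Success c κ z ∧ ¬ K ≤ #{y : S | y ∈ N₀ ∧ c y z ∉ I}} ∪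
        ⋃ x ∈ N₀, {z : S | z ∈ Ax x ∧ ¬ Success c κ z ∧
          ¬ (κ + K) ≤ #{y : S | y ∈ Nx x ∧ c y z ∉ I}}) ?_)
        (lt_of_le_of_lt (Cardinal.mk_union_le _ _) (Cardinal.add_lt_of_lt hlam.aleph0_le hE₀ ?_))
      · rintro z ⟨hzA, hzS, hzK⟩
        by_contra hcon
        simp only [mem_union, mem_iUnion, mem_ofPred_eq, not_or, not_exists, not_and, not_not] at hcon
        obtain ⟨h0, h1⟩ := hcon
        have h0 := h0 hzA hzS
        -- either some `x ∈ N₀` has `c x z = i`, or none
        by_cases hex : ∃ x ∈ N₀, c x z = i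
        · obtain ⟨x, hxN, hxi⟩ := hex
          have h2 := h1 x hxN ⟨hzA, hxi⟩ hzS
          -- split according to whether `c y z = i`
          have hsub : {y : S | y ∈ Nx x ∧ c y z ∉ I} ⊆
              {y : S | c x y = i ∧ c y z = i} ∪
              {y : S | y ∈ (N₀ ∪ ⋃ x ∈ N₀, Nx x) ∧ c y z ∉ insert i I} := by
            rintro y ⟨hy, hyI⟩
            by_cases hyi : c y z = i
            · exact Or.inl ⟨(hNxA x hy).2, hyi⟩
            · refine Or.inr ⟨Or.inr (mem_biUnion hxN hy), ?_⟩
              simp [hyi, hyI]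
          have h3 := h2.trans ((Cardinal.mk_le_mk_of_subset hsub).trans (Cardinal.mk_union_le _ _))
          have h4 : #{y : S | c x y = i ∧ c y z = i} < κ := by
            by_contra hge
            exact hzS ⟨x, i, not_lt.1 hge⟩
          exact absurd h3 (not_le.2 (Cardinal.add_lt_add h4 (not_le.1 hzK)))
        · push Not at hex
          apply hzK
          refine h0.trans (Cardinal.mk_le_mk_of_subset ?_)
          rintro y ⟨hy, hyI⟩
          refine ⟨Or.inl hy, ?_⟩
          simp [hex y hy, hyI]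
      · exact (Cardinal.card_biUnion_lt_iff_forall_of_isRegular hlam hN₀).2 fun x _ => hEx x

/-- The combinatorial heart: for a colouring of pairs of a large set with finitely many colours
there are `x`, `z` and a colour `i` such that `c x y = i = c y z` for at least `κ` many `y`. -/
theorem exists_pair [Finite C] {lam : Cardinal.{u}} (hlam : lam.IsRegular) (hκ : κ < lam)
    (hS : lam ≤ #S) :
    ∃ (x z : S) (i : C), κ ≤ #{y : S | c x y = i ∧ c y z = i} := by
  classical
  have := Fintype.ofFinite C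
  obtain ⟨N, -, -, hE⟩ := key c κ hlam hκ (Finset.univ : Finset C) 1
    (Cardinal.one_lt_aleph0.trans_le hlam.aleph0_le) (Set.univ : Set S) (by simpa using hS)
  by_contra hcon
  push Not at hcon
  have : {z : S | z ∈ (Set.univ : Set S) ∧ ¬ Success c κ z ∧
      ¬ (1 : Cardinal.{u}) ≤ #{y : S | y ∈ N ∧ c y z ∉ (Finset.univ : Finset C)}} = Set.univ := by
    ext z
    simp only [mem_univ, true_and, Finset.mem_univ, not_true_eq_false, and_false, mem_ofPred_eq,
      iff_true]
    refine ⟨?_, by simp⟩
    rintro ⟨x, i, h⟩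
    exact absurd h (not_le.2 (hcon x z i))
  rw [this, Cardinal.mk_univ] at hE
  exact absurd hS (not_le.2 hE)

end Pairs

/-- The regular cardinal used: `ℵ₀` if `κ` is finite and `κ⁺` otherwise. -/
theorem exists_regular {κ μ : Cardinal.{u}} (hμ : ℵ₀ ≤ μ) (h : κ < μ) :
    ∃ lam : Cardinal.{u}, lam.IsRegular ∧ κ < lam ∧ lam ≤ μ := by
  by_cases hk : κ < ℵ₀
  · exact ⟨ℵ₀, Cardinal.isRegular_aleph0, hk, hμ⟩
  · exact ⟨Order.succ κ, Cardinal.isRegular_succ (not_lt.1 hk), Order.lt_succ κ,
      Order.succ_le_of_lt h⟩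

/-- Every colouring of `G` with finitely many colours has a monochromatic symmetric subset of
cardinality at least `κ`. -/
theorem exists_mono {G : Type u} [CommGroup G] [Infinite G] {κ : Cardinal.{u}} (h : κ < #G)
    {C : Type u} [Finite C] (χ : G → C) :
    ∃ A : Set G, IsSymmetric A ∧ IsMonochromatic χ A ∧ κ ≤ #A := by
  classical
  obtain ⟨lam, hlam, hκ, hG⟩ := exists_regular (Cardinal.aleph0_le_mk G) h
  -- the squaring homomorphism
  let f : G →* G := powMonoidHom 2
  have hcard : #G = #f.range * #f.ker := by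
    have h1 : #G = #((G ⧸ f.ker) × f.ker) := Cardinal.mk_congr Subgroup.groupEquivQuotientProdSubgroup
    rw [h1, Cardinal.mk_prod, Cardinal.lift_id, Cardinal.lift_id,
      Cardinal.mk_congr (QuotientGroup.quotientKerEquivRange f).toEquiv]
  rcases le_or_gt lam #f.range with hr | hr
  · -- the subgroup of squares is large
    obtain ⟨x, z, i, hY⟩ := exists_pair (S := f.range)
      (fun x y => χ ((y : G) / (x : G))) κ hlam hκ hr
    obtain ⟨g, hg⟩ : ∃ g : G, f g = (z : G) / (x : G) := by
      have : (z : G) / (x : G) ∈ f.range := f.range.div_mem z.2 x.2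
      simpa using this
    have hg' : g * g = (z : G) / (x : G) := by
      rw [← hg]; simp [f, sq]
    have hinv : ∀ a : G, g * a⁻¹ * g = ((z : G) / (x : G)) * a⁻¹ := by
      intro a; rw [← hg']; rw [mul_assoc, mul_comm a⁻¹ g, ← mul_assoc]
    have hinv2 : ∀ a : G, g * (g * a⁻¹ * g)⁻¹ * g = a := by
      intro a; group
    refine ⟨{a : G | χ a = i ∧ χ (g * a⁻¹ * g) = i}, ⟨g, ?_⟩, ?_, ?_⟩
    · ext a
      simp only [mem_ofPred_eq, mem_image]
      constructor
      · rintro ⟨h1, h2⟩
        refine ⟨g * a⁻¹ * g, ⟨h2, ?_⟩, hinv2 a⟩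
        rw [hinv2]; exact h1
      · rintro ⟨b, ⟨h1, h2⟩, rfl⟩
        refine ⟨h2, ?_⟩
        rw [hinv2]; exact h1
    · rintro a ⟨ha, -⟩ b ⟨hb, -⟩
      rw [ha, hb]
    · refine hY.trans ?_
      refine Cardinal.mk_le_of_injective (f := fun y => ⟨((y : f.range) : G) / (x : G), ?_⟩) ?_
      · obtain ⟨h1, h2⟩ := y.2
        refine ⟨h1, ?_⟩
        rw [hinv]
        rw [show (z : G) / (x : G) * (((y : f.range) : G) / (x : G))⁻¹ =
          (z : G) / ((y : f.range) : G) by
            rw [inv_div, div_mul_div_cancel]]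
        exact h2
      · intro y₁ y₂ hy
        simp only [Subtype.mk.injEq, div_left_inj] at hy
        exact Subtype.ext (Subtype.ext hy)
  · -- the kernel of squaring is large
    have hk : lam ≤ #f.ker := by
      by_contra hcon
      have : #G < lam := by
        rw [hcard]
        exact Cardinal.mul_lt_of_lt hlam.aleph0_le hr (not_le.1 hcon)
      exact absurd hG (not_le.2 this)
    -- pigeonhole on the kernel
    have hex : ∃ i : C, κ ≤ #{a : G | a ∈ f.ker ∧ χ a = i} := by
      by_contra hcon
      push Not at hcon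
      have hsub : (f.ker : Set G) = ⋃ i : C, {a : G | a ∈ f.ker ∧ χ a = i} := by
        ext a; simp
      have hlt : #(⋃ i : C, {a : G | a ∈ f.ker ∧ χ a = i}) < lam := by
        rw [Cardinal.card_iUnion_lt_iff_forall_of_isRegular hlam]
        · intro i
          exact (hcon i).trans hκ
        · exact (Cardinal.lt_aleph0_of_finite C).trans_le hlam.aleph0_le
      rw [← hsub] at hlt
      exact absurd hk (not_le.2 hlt)
    obtain ⟨i, hi⟩ := hex
    refine ⟨{a : G | a ∈ f.ker ∧ χ a = i}, ⟨1, ?_⟩, ?_, hi⟩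
    · have hinv : ∀ a ∈ f.ker, (1 : G) * a⁻¹ * 1 = a := by
        intro a ha
        have : a * a = 1 := by
          rw [MonoidHom.mem_ker] at ha
          simpa [f, sq] using ha
        rw [one_mul, mul_one]
        exact inv_eq_of_mul_eq_one_right this
      ext a
      simp only [mem_ofPred_eq, mem_image]
      constructor
      · rintro ⟨h1, h2⟩
        exact ⟨a, ⟨h1, h2⟩, hinv a h1⟩
      · rintro ⟨b, ⟨h1, h2⟩, rfl⟩
        rw [hinv b h1]
        exact ⟨h1, h2⟩
    · rintro a ⟨-, ha⟩ b ⟨-, hb⟩
      rw [ha, hb]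

/-- **Full answer.**  For every cardinal `κ` and every infinite Abelian group `G` with `κ < |G|`
one has `ν(G, κ) ≥ ℵ₀`. -/
theorem result (κ : Cardinal.{u}) (G : Type u) [CommGroup G] [Infinite G] (h : κ < #G) :
    ((ℵ₀ : Cardinal.{u}) : WithTop Cardinal.{u}) ≤ nu G κ := by
  refine le_sInf ?_
  rintro r ⟨C, χ, rfl, hC⟩
  by_contra hcon
  have hlt : #C < ℵ₀ := by
    have := not_le.1 hcon
    exact_mod_cast this
  have : Finite C := Cardinal.lt_aleph0_iff_finite.1 hlt
  obtain ⟨A, h1, h2, h3⟩ := exists_mono h χ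
  exact hC A h1 h2 h3

end Pool.Agent.Results.MP_d56e90_lc.SymmetricZFC
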